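import Pool.Agent.H725.UG.Main

/-!
# Undirected graph templates are universal for the Bodirsky–Pinsker conjecture

For every `k`, every template `𝔸` in the scope of the Bodirsky–Pinsker conjecture can be replaced by an
undirected graph `(V; E)` in the scope of the conjecture which pp-constructs `𝔸`, has up to polynomial-time
reductions the same CSP, and pp-constructs `K₃` if and only if `𝔸` does. The graph belongs to the following
class: `E` is one of the relations of a countable finitely bounded homogeneous structure `𝔹` such that every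
isomorphism between induced subgraphs of `(V; E)` on at most `k` vertices extends to an automorphism of
`𝔹`, `(V; E)` contains the complete graph with `k` vertices but is `K_M`-free for some `M`, every countable
graph with a homomorphism to `(V; E)` embeds into `(V; E)` as an induced subgraph, `Aut(𝔹)` has no
algebraicity, and `𝔹` has injective polymorphisms of every arity.

Consequently, for every `k`, the conjecture Q1 is equivalent to its restriction to such undirected graphs.

Definitions used from the starting files: `Pool.Agent.W994.AR` (relational structures `Str`, `autGroup`,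
`Homogeneous`, `FinitelyBounded`, primitive positive definitions `PPDef` and `PPConstructsK3`, polymorphisms
`IsPol`), `Pool.Agent.H593R3.FBC` (instances `Inst` and `CSP`), `Pool.Agent.NPC` (`InPP`: the decision
problem is decided in polynomial time by a Turing machine in the sense of Mathlib, `Poly`: computable in
polynomial time).
-/

set_option autoImplicit false

namespace Pool.Agent.Results.MP_6ab439_lc.UndirectedGraphTemplates

open Function Pool.Agent.W994.AR Pool.Agent.NPC
open Pool.Agent.H593R3.FBC (Inst IsInst CSP Rels)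

/-- The relations of a structure with `n` relation symbols, as relations between lists. -/
def rels {n : ℕ} {ar : Fin n → ℕ} {A : Type} (𝔸 : Str (Fin n) ar A) : Rels A :=
  fun i l => ∃ (j : Fin n) (v : Fin (ar j) → A), j.1 = i ∧ v ∈ 𝔸 j ∧ List.ofFn v = l

/-- The constraint satisfaction problem of the structure `𝔸`: given a finite structure (with domain
`{0, ..., N - 1}`, given by `N` in unary and the list of its tuples), is there a homomorphism to `𝔸`? -/
def CSPOf {n : ℕ} {ar : Fin n → ℕ} {A : Type} (𝔸 : Str (Fin n) ar A) (I : Inst) : Prop :=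
  CSP (List.ofFn ar) (rels 𝔸) I

/-- Polynomial-time many-one reductions between decision problems. -/
def PolyReduces (P Q : Inst → Prop) : Prop :=
  ∃ g : Inst → Inst, Poly g ∧ ∀ I, P I ↔ Q (g I)

/-- `𝔹` pp-constructs `𝔸`: the structure `𝔸` is homomorphically equivalent to a structure with the domain
`B ^ n`, `n ≥ 1`, whose relations are primitive positive definable in `𝔹` (the element `x` of `B ^ n` is the
tuple of the `x a`, `a < n`; a relation `R i` of arity `r` on `B ^ n` is a relation of arity `r * n`). -/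
def PPConstructs {ι κ : Type} {ar : ι → ℕ} {ar' : κ → ℕ} {B A : Type} (𝔹 : Str ι ar B)
    (𝔸 : Str κ ar' A) : Prop :=
  ∃ (n : ℕ) (R : ∀ i : κ, Set (Fin (ar' i) × Fin n → B)), 1 ≤ n ∧ (∀ i, PPDef 𝔹 (R i)) ∧
    (∃ f : A → (Fin n → B), ∀ i, ∀ v ∈ 𝔸 i, (fun p => f (v p.1) p.2) ∈ R i) ∧
    (∃ g : (Fin n → B) → A, ∀ i, ∀ u ∈ R i, (fun j => g (fun a => u (j, a))) ∈ 𝔸 i)

/-- No algebraicity: a point outside a finite set `F` has an infinite orbit under the pointwise
stabilizer of `F`. -/
def NoAlgebraicity {V : Type} (G : Subgroup (Equiv.Perm V)) : Prop :=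
  ∀ (F : Finset V) (a : V), a ∉ F → {b | ∃ g ∈ G, (∀ x ∈ F, g x = x) ∧ g a = b}.Infinite

/-- Q1 for all templates: reducts (discarding relations) of countable finitely bounded homogeneous
structures. -/
def Q1 : Prop :=
  ∀ (σ : Type) [Finite σ] (ar : σ → ℕ) (B : Type) [Countable B] (𝔹 : Str σ ar B),
    Homogeneous 𝔹 → FinitelyBounded 𝔹 →
    ∀ (n : ℕ) (s : Fin n → σ), Injective s →
      ¬ PPConstructsK3 (fun i => 𝔹 (s i)) → InPP (CSPOf (fun i => 𝔹 (s i)))

/-- The template `(V; E)` with the single binary relation `E`. -/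
def graph {V : Type} (E : V → V → Prop) : Str (Fin 1) (fun _ => 2) V :=
  fun _ => {v | E (v 0) (v 1)}

/-- The graphs `(V; E)` of the restricted class with the parameter `k`, where `𝔹` is a structure with the
domain `V`. -/
structure Nice (k : ℕ) {σ : Type} {ar : σ → ℕ} {V : Type} (𝔹 : Str σ ar V) (E : V → V → Prop) :
    Prop where
  /-- `E` is one of the relations of `𝔹` -/
  isRel : ∃ (r : σ) (hr : ar r = 2), ∀ v : Fin (ar r) → V,
    v ∈ 𝔹 r ↔ E (v (Fin.cast hr.symm 0)) (v (Fin.cast hr.symm 1))
  /-- `(V; E)` is an undirected graph without loops -/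
  symm : ∀ x y, E x y → E y x
  irrefl : ∀ x, ¬ E x x
  /-- isomorphisms between induced subgraphs on at most `k` vertices extend to automorphisms of `𝔹` -/
  homog : ∀ j ≤ k, ∀ u v : Fin j → V, Injective u → Injective v →
    (∀ a b, E (u a) (u b) ↔ E (v a) (v b)) → ∃ g ∈ autGroup 𝔹, ∀ a, g (u a) = v a
  /-- `(V; E)` contains the complete graph with `k` vertices, but not all finite complete graphs -/
  clique : ∃ u : Fin k → V, ∀ a b, a ≠ b → E (u a) (u b)
  noClique : ∃ M : ℕ, ∀ u : Fin M → V, ∃ a b, a ≠ b ∧ ¬ E (u a) (u b)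
  /-- every countable graph with a homomorphism to `(V; E)` embeds into `(V; E)` as an induced subgraph -/
  embed : ∀ (X : Type) [Countable X] (R : X → X → Prop), (∀ x y, R x y → R y x) →
    ∀ φ : X → V, (∀ x y, R x y → E (φ x) (φ y)) → ∃ e : X → V, Injective e ∧
      ∀ x y, R x y ↔ E (e x) (e y)
  /-- the automorphism group of `𝔹` has no algebraicity -/
  noAlg : NoAlgebraicity (autGroup 𝔹)
  /-- `𝔹` has injective polymorphisms of every arity -/
  pol : ∀ d, 0 < d → ∃ h : (Fin d → V) → V, Injective h ∧ IsPol 𝔹 h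

/-- Q1 for the undirected graphs of the restricted class with the parameter `k`. -/
def Q1Graphs (k : ℕ) : Prop :=
  ∀ (σ : Type) [Finite σ] (ar : σ → ℕ) (B : Type) [Countable B] (𝔹 : Str σ ar B),
    Homogeneous 𝔹 → FinitelyBounded 𝔹 → ∀ E : B → B → Prop, Nice k 𝔹 E →
      ¬ PPConstructsK3 (graph E) → InPP (CSPOf (graph E))

/-- For every template `𝔸` in the scope of Q1 (with nonempty domain) there is an undirected graph
in the restricted class with the parameter `k` which pp-constructs `𝔸`, which pp-constructs `K₃` if and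
only if `𝔸` does, and whose CSP is polynomial-time equivalent to the CSP of `𝔸`. -/
def Universality (k : ℕ) : Prop :=
  ∀ (σ : Type) [Finite σ] (ar : σ → ℕ) (B : Type) [Countable B] [Nonempty B] (𝔹 : Str σ ar B),
    Homogeneous 𝔹 → FinitelyBounded 𝔹 → ∀ (n : ℕ) (s : Fin n → σ),
    ∃ (σ' : Type) (_ : Finite σ') (ar' : σ' → ℕ) (𝔹' : Str σ' ar' ℕ) (E : ℕ → ℕ → Prop),
      Homogeneous 𝔹' ∧ FinitelyBounded 𝔹' ∧ Nice k 𝔹' E ∧
      PPConstructs (graph E) (fun i => 𝔹 (s i)) ∧
      (PPConstructsK3 (graph E) ↔ PPConstructsK3 (fun i => 𝔹 (s i))) ∧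
      PolyReduces (CSPOf (fun i => 𝔹 (s i))) (CSPOf (graph E)) ∧
      PolyReduces (CSPOf (graph E)) (CSPOf (fun i => 𝔹 (s i)))

/-- The universality of the restricted classes of undirected graphs, and the equivalence of Q1 with its
restriction to each of these classes. -/
theorem result : ∀ k : ℕ, Universality k ∧ (Q1 ↔ Q1Graphs k) := by
  intro k
  have hU : Universality k := by
    intro σ _ ar B _ _ 𝔹 h1 h2 n s
    obtain ⟨σ', hσ', ar', 𝔹', E, a1, a2, a3, a4, a5, a6, a7⟩ :=
      Pool.Agent.H725.UG.main 𝔹 h1 h2 s k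
    exact ⟨σ', hσ', ar', 𝔹', E, a1, a2, ⟨a3.isRel, a3.symm, a3.irrefl, a3.homog, a3.clique, a3.noClique,
      a3.embed, a3.noAlg, a3.pol⟩, a4, a5, a6, a7⟩
  refine ⟨hU, ?_, ?_⟩
  · intro h σ _ ar B _ 𝔹 h1 h2 E hE h3
    obtain ⟨r, hr, hrE⟩ := hE.isRel
    have key : ∀ (q : ℕ) (hq : q = 2) (R : Set (Fin q → B)),
        (∀ v : Fin q → B, v ∈ R ↔ E (v (Fin.cast hq.symm 0)) (v (Fin.cast hq.symm 1))) →
        (¬ PPConstructsK3 (fun _ => R : Str (Fin 1) (fun _ => q) B) →
          InPP (CSPOf (fun _ => R : Str (Fin 1) (fun _ => q) B))) →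
        ¬ PPConstructsK3 (graph E) → InPP (CSPOf (graph E)) := by
      rintro q rfl R hR h4 h5
      have h6 : R = {v | E (v 0) (v 1)} := by
        ext v
        exact hR v
      subst h6
      exact h4 h5
    exact key (ar r) hr (𝔹 r) hrE (h σ ar B 𝔹 h1 h2 1 (fun _ => r) (fun _ _ _ => Subsingleton.elim _ _)) h3
  · intro h σ _ ar B _ 𝔹 h1 h2 n s _ h3
    rcases isEmpty_or_nonempty B with hB | hB
    · exact Pool.Agent.E8helper92.BP.csp_empty _
    · obtain ⟨σ', hσ', ar', 𝔹', E, a1, a2, a3, -, a5, ⟨g, hg, hg'⟩, -⟩ := hU σ ar B 𝔹 h1 h2 n s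
      exact InPP.of_poly (@h σ' hσ' ar' ℕ _ 𝔹' a1 a2 E a3 (fun h5 => h3 (a5.1 h5))) hg hg'

end Pool.Agent.Results.MP_6ab439_lc.UndirectedGraphTemplates
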