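import Pool.Agent.H698.UC.Core

set_option autoImplicit false

/-!
# A dichotomy for constraint satisfaction and circuits that compute with unknown inputs

A template is a family of relations on a finite or infinite set.  The circuits read, for each
constraint of a finite family, whether it is known to be present, known to be absent or unknown.
The gates have values in an ordered set `D` of states of knowledge and apply arbitrary functions
`D → D → D` that respect the order (more knowledge about the arguments gives more knowledge about
the value); `D` is any partially ordered set in which the elements below a given one form a chain of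
real numbers.

* If `D` is the flat order with the values `unknown`, `known true` and `known false` then these are
  the hazard-free (Kleene, three-valued) circuits with arbitrary binary gates, each evaluated by its
  most precise extension; negations are allowed.
* If `D` is the flat order over an arbitrary set `A` (values, variables, words, ...) the gates may
  apply arbitrary functions `A → A → A` as soon as the arguments are known.
* If `D = ℝ` then these are the monotone real circuits.

A template is hard (`HardU`) if for some instances with `N` variables and constraints all randomised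
circuits of all these kinds need size `exp (N ^ (1/2 - ε)) - 1` to raise the alarm whenever an
unsatisfiable set of constraints is known to be present (further constraints cannot make it
satisfiable) and not to raise it on the completely known satisfiable sets.  It is easy (`EasyU`) if
for every ordered set `D` with two elements `a < b` circuits over `D` of polynomial size compute the
value `b` if the constraints known to be present are unsatisfiable and `a` otherwise.

(1) All templates, on any set, that pp-construct the triangle are hard and not easy.
(2) All reducts of `(ℕ; =)` with finitely many relations satisfy the dichotomy: they pp-construct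
    the triangle and are hard, or they do not and are easy.
(3) So do, for every homogeneous structure in a finite relational signature, all but a doubly
    exponentially small proportion of the expansions of a fixed reduct by invariant relations of
    arities at least `m`.

Proof. Feed the circuit with the sets whose absent constraints are declared unknown. All gate values
are then below the value for the set of all constraints, so that they lie in a chain, in which the
gate is simulated by one monotone real gate; no gates are lost. Then the lower bound for monotone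
real circuits of `Pool.Graph.R_pool_sql_team_seeded_1acbe0a2.Y612.Eq` applies; the easy sides are
translated from circuits of AND and OR gates.
-/

namespace Pool.Agent.Results.MP_6ab439_lc.UnknownInputCircuits

open Pool.Agent.H698.HF Pool.Agent.H698.UC
open Pool.Agent.Y612.Eq (Con Solvable ConstructsK3 Inv)
open Pool.Agent.W994.AR (Str Homogeneous Invar InvRel autGroup expand)

/-- The dichotomy: the template pp-constructs the triangle and is hard, or it does not and is
easy. -/
def Dich {ι B : Type} {ar : ι → ℕ} (R : ∀ i, Set (Fin (ar i) → B)) : Prop :=
  (ConstructsK3 R ∧ HardU R) ∨ (¬ ConstructsK3 R ∧ EasyU R)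

theorem dich_hard {ι B : Type} {ar : ι → ℕ} {R : ∀ i, Set (Fin (ar i) → B)}
    (h : ConstructsK3 R) : HardU R ∧ ¬ EasyU R := by
  have h1 : HardU R := hardU_of (Pool.Agent.Y612.Eq.hard_of h)
  exact ⟨h1, fun h' => excl h' h1⟩

theorem dich_easy {ι B : Type} {ar : ι → ℕ} {R : ∀ i, Set (Fin (ar i) → B)}
    (h : Pool.Agent.Y612.Eq.Easy R) : Dich R :=
  Or.inr ⟨fun h' => (dich_hard h').2 (easyU_of h), easyU_of h⟩

open Classical in
/-- (1) Templates on any set that pp-construct the triangle are hard and not easy. (2) The dichotomy
for reducts of `(ℕ; =)`. (3) The dichotomy for almost all reducts of homogeneous structures. (4) For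
every finite family of constraints some function that respects the knowledge detects the
unsatisfiable sets. (5) The real numbers and all flat orders are tree-like, and the most precise
extension of a function to a flat order is nondecreasing, so that it is allowed at the gates. -/
theorem result :
    (∀ (ι : Type) (ar : ι → ℕ) (B : Type) (R : ∀ i, Set (Fin (ar i) → B)),
      ConstructsK3 R → HardU R ∧ ¬ EasyU R) ∧
    (∀ (ι : Type) [Finite ι] (ar : ι → ℕ) (R : ∀ i, Set (Fin (ar i) → ℕ)), Inv R → Dich R) ∧
    (∀ (B σ ι : Type) [Nontrivial B] [Finite σ] [Finite ι] (arB : σ → ℕ) (arΓ : ι → ℕ)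
      (𝔹 : Str σ arB B), Homogeneous 𝔹 → ∀ Γ : Str ι arΓ B, (∀ l, Invar (autGroup 𝔹) (Γ l)) →
      (∀ n, Finite (InvRel (autGroup 𝔹) (Fin n))) ∧
      ∃ C c δ : ℝ, 0 < C ∧ 0 < c ∧ 0 < δ ∧
        ∀ (t : ℕ) (k : Fin t → ℕ) (m : ℕ), 1 ≤ t → (∀ j, m ≤ k j) →
          (Nat.card {R : ∀ j, InvRel (autGroup 𝔹) (Fin (k j)) //
            ¬ Dich (expand Γ (fun j => (R j).1))} : ℝ) ≤
            t * C * Real.exp (-(δ * Real.exp (c * m))) *
              Nat.card (∀ j, InvRel (autGroup 𝔹) (Fin (k j)))) ∧
    (∀ (ι : Type) (ar : ι → ℕ) (B : Type) (R : ∀ i, Set (Fin (ar i) → B)) (V I : Type) [Fintype I]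
      (con : I → Con ar V), ∃ F : Know I → ℝ, (∀ P Q, Le P Q → F P ≤ F Q) ∧ ∀ X : Finset I,
      (¬ Solvable R con X → F (truths fun i => i ∈ X) = 1) ∧
      (Solvable R con X → F (full fun i => i ∈ X) = 0)) ∧
    TreeLike ℝ ∧ ∀ A : Type, TreeLike (Flat A) ∧ (Nonempty A → ∀ (f : A → A → A)
      (x x' y y' : Flat A), x ≤ x' → y ≤ y' → Flat.ext f x y ≤ Flat.ext f x' y') := by
  refine ⟨fun ι ar B R h => dich_hard h, fun ι _ ar R hR => ?_, ?_,
    fun ι ar B R V I _ con => exists_ideal R con, treeLike_real,
    fun A => ⟨Flat.treeLike, fun hA f x x' y y' hx hy => Flat.ext_mono' f x x' y y' hx hy⟩⟩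
  · by_cases h : ConstructsK3 R
    · exact Or.inl ⟨h, (dich_hard h).1⟩
    · rcases Pool.Agent.Y612.Eq.pol_of Pool.Agent.Y612.Eq.EQ_Comb hR h with h1 | h1
      · exact dich_easy (Pool.Agent.Y612.Eq.easy_const h1)
      · exact dich_easy (Pool.Agent.Y612.Eq.easy_inj hR h1)
  · intro B σ ι _ _ _ arB arΓ 𝔹 h𝔹 Γ hΓ
    have hfin : ∀ k, Finite (Pool.Agent.W994.AR.Orb (autGroup 𝔹) (Fin k)) :=
      fun k => Pool.Agent.W994.AR.hom_finite h𝔹 (Fin k)
    have hfinI : ∀ k, Finite (InvRel (autGroup 𝔹) (Fin k)) := fun k => by
      have := hfin k
      exact Pool.Agent.W994.AR.finite_inv _ _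
    refine ⟨hfinI, ?_⟩
    obtain ⟨C, c, δ, hC, hc, hδ, hbd⟩ := Pool.Agent.W994.AR.rich_bound_many (autGroup 𝔹)
      (Pool.Agent.W994.AR.dim arB arΓ) (Pool.Agent.W994.AR.dim_pos _ _) hfin
    refine ⟨C, c, δ, hC, hc, hδ, ?_⟩
    intro t k m ht hm
    have h1 := hbd t k m hm
    refine le_trans ?_ h1
    have : Finite (∀ j, InvRel (autGroup 𝔹) (Fin (k j))) := inferInstance
    have h2 : Nat.card {R : ∀ j, InvRel (autGroup 𝔹) (Fin (k j)) //
        ¬ Dich (expand Γ (fun j => (R j).1))} ≤
        Nat.card {R : ∀ j, InvRel (autGroup 𝔹) (Fin (k j)) //
          ¬ ∀ j, Pool.Agent.W994.AR.Rich (autGroup 𝔹)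
            (Fin (Pool.Agent.W994.AR.dim arB arΓ)) (R j).1} := by
      apply Nat.card_le_card_of_injective (fun R => ⟨R.1, fun h => R.2 (by
        by_cases hcst : Pool.Agent.W994.AR.ConstEndo (expand Γ (fun j => (R.1 j).1))
        · exact dich_easy (easy_of_const hcst)
        · have h3 := constructs_of (Pool.Agent.W994.AR.max_of_rich 𝔹 h𝔹 Γ hΓ ht R.1 h hcst).1
          exact Or.inl ⟨h3, (dich_hard h3).1⟩)⟩)
      intro R R' h
      exact Subtype.ext (congrArg (fun x => x.1) h)
    exact_mod_cast h2

end Pool.Agent.Results.MP_6ab439_lc.UnknownInputCircuits
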